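import Mathlib

/-!
# MP_1db03b_co: `T ↦ G_T` is not a complete invariant of rooted trees

Rooted trees are generated from the one-vertex tree `pt` by `graft t s`, which attaches to the
root of `s` one more branch `t`.  `RTree.graph` is the underlying graph, and two rooted trees are
isomorphic iff there is a graph isomorphism mapping root to root.

If `X, Y` are rooted trees with `A_X = A_Y`, then
`T = ∧(∧(X,X), ∧(Y,Y))` and `T' = ∧(∧(X,Y), ∧(X,Y))` have `M_T = M_{T'}`.
-/

set_option autoImplicit false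

open Polynomial

namespace Pool.Agent.Results.MP_1db03b_co.NotComplete

/-- Rooted trees: `pt` is the one-vertex tree, and the branches of `graft t s` are `t` and the
branches of `s`; so `∧(T₁,…,T_r) = graft T₁ (graft T₂ (… (graft T_r pt)))`. -/
inductive RTree where
  | pt : RTree
  | graft : RTree → RTree → RTree

namespace RTree

/-- is it the one-vertex tree? -/
def isPt : RTree → Bool
  | pt => true
  | graft _ _ => false

/-- `∏ (1 - p_{T_i}(x))` over the branches `T_i`. -/
noncomputable def prodP : RTree → ℤ[X]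
  | pt => 1
  | graft t s => (1 - (if t.isPt then X else X * (1 - prodP t))) * prodP s

/-- `p_•(x) = x`, `p_T(x) = x (1 - ∏ (1 - p_{T_i}(x)))`. -/
noncomputable def p (T : RTree) : ℤ[X] := if T.isPt then X else X * (1 - prodP T)

/-- `∏ A_{T_i}(x,y)` over the branches `T_i`; the variables `x, y, z` are `X 0, X 1, X 2`. -/
noncomputable def prodA : RTree → MvPolynomial (Fin 3) ℤ
  | pt => 1
  | graft t s => (if t.isPt then .X 1 else .X 1 + .X 0 * prodA t) * prodA s

/-- `A_•(x,y) = y`, `A_T(x,y) = y + x ∏ A_{T_i}(x,y)`. -/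
noncomputable def A (T : RTree) : MvPolynomial (Fin 3) ℤ :=
  if T.isPt then .X 1 else .X 1 + .X 0 * prodA T

/-- `∑_i M_{T_i} ∏_{j≠i} A_{T_j}` over the branches. -/
noncomputable def sumM : RTree → MvPolynomial (Fin 3) ℤ
  | pt => 0
  | graft t s =>
      (if t.isPt then 1 else Polynomial.aeval (.X 2) (p t).divX + .X 0 * sumM t) * prodA s
        + A t * sumM s

/-- `M_•(x,y,z) = 1`, `M_T(x,y,z) = p_T(z)/z + x ∑_i M_{T_i}(x,y,z) ∏_{j≠i} A_{T_j}(x,y)`. -/
noncomputable def M (T : RTree) : MvPolynomial (Fin 3) ℤ :=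
  if T.isPt then 1 else Polynomial.aeval (.X 2) (p T).divX + .X 0 * sumM T

/-- `G_T(x) = ∫_0^1 M_T(xu, 1-u, u) du`. -/
noncomputable def G (T : RTree) : ℝ → ℝ := fun x =>
  ∫ u in (0:ℝ)..1, MvPolynomial.aeval ![x * u, 1 - u, u] (M T)

/-- the number of branches -/
def deg : RTree → ℕ
  | pt => 0
  | graft _ s => deg s + 1

/-- The addresses of the vertices: the root is `[]`, and the vertex with address `a` in the `i`-th
branch has address `a ++ [i]`, so that the parent of a vertex is the tail of its address. -/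
def verts : RTree → List (List ℕ)
  | pt => [[]]
  | graft t s => verts s ++ (verts t).map (fun a => a ++ [deg s])

/-- The underlying graph: each vertex `i :: a` is joined to its parent `a`. -/
def graph (T : RTree) : SimpleGraph {a : List ℕ // a ∈ T.verts} where
  Adj a b := (∃ i, a.1 = i :: b.1) ∨ (∃ i, b.1 = i :: a.1)
  symm := ⟨by rintro a b (h | h) <;> [right; left] <;> exact h⟩
  loopless := ⟨by rintro a (⟨i, h⟩ | ⟨i, h⟩) <;> simpa using congrArg List.length h⟩

theorem nil_mem (T : RTree) : [] ∈ T.verts := by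
  induction T with
  | pt => simp [verts]
  | graft t s _ ih => simp [verts, ih]

/-- the root -/
def root (T : RTree) : {a : List ℕ // a ∈ T.verts} := ⟨[], T.nil_mem⟩

/-- isomorphism of rooted trees: a graph isomorphism mapping root to root -/
def Iso (T T' : RTree) : Prop := ∃ f : T.graph ≃g T'.graph, f T.root = T'.root

/-! ### polynomials -/

/-- `∧(a)` -/
def n1 (a : RTree) : RTree := graft a pt
/-- `∧(a,b)` -/
def n2 (a b : RTree) : RTree := graft a (graft b pt)

theorem A_n2 (a b : RTree) : A (n2 a b) = .X 1 + .X 0 * (A a * A b) := by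
  simp [A, n2, prodA, isPt]

theorem A_n1 (a : RTree) : A (n1 a) = .X 1 + .X 0 * A a := by
  simp [A, n1, prodA, isPt]

theorem p_n2 (a b : RTree) : p (n2 a b) = X * (1 - (1 - p a) * (1 - p b)) := by
  simp [p, n2, prodP, isPt]

theorem p_n1 (a : RTree) : p (n1 a) = X * p a := by
  simp [p, n1, prodP, isPt]

theorem M_n2 (a b : RTree) : M (n2 a b) =
    Polynomial.aeval (.X 2) (p (n2 a b)).divX + .X 0 * (M a * A b + A a * M b) := by
  simp [M, n2, prodA, sumM, isPt, A]

theorem key (x y : RTree) (hA : A x = A y) (hp : p x = p y) :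
    M (n2 (n2 x x) (n2 y y)) = M (n2 (n2 x y) (n2 x y)) := by
  have h1 : p (n2 x x) = p (n2 x y) := by rw [p_n2, p_n2, hp]
  have h2 : p (n2 y y) = p (n2 x y) := by rw [p_n2, p_n2, hp]
  have h3 : p (n2 (n2 x x) (n2 y y)) = p (n2 (n2 x y) (n2 x y)) := by
    rw [p_n2 (n2 x x) (n2 y y), p_n2 (n2 x y) (n2 x y), h1, h2]
  rw [M_n2, M_n2 (n2 x y) (n2 x y), h3, M_n2 x x, M_n2 y y, M_n2 x y, h1, h2,
    A_n2, A_n2, A_n2, hA]
  ring

/-- the first tree on nine vertices -/
def X1 : RTree := n2 (n1 pt) (n2 pt (n1 (n2 pt pt)))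
/-- the second tree on nine vertices -/
def X2 : RTree := n2 (n2 pt pt) (n1 (n2 pt (n1 pt)))

theorem A_pt : A pt = .X 1 := by simp [A, isPt]
theorem p_pt : p pt = X := by simp [p, isPt]

theorem hA : A X1 = A X2 := by
  simp only [X1, X2, A_n2, A_n1, A_pt]
  ring

theorem hp : p X1 = p X2 := by
  simp only [X1, X2, p_n2, p_n1, p_pt]
  ring

/-- the first tree on 39 vertices -/
def T1 : RTree := n2 (n2 X1 X1) (n2 X2 X2)
/-- the second tree on 39 vertices -/
def T2 : RTree := n2 (n2 X1 X2) (n2 X1 X2)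

/-! ### non-isomorphism -/

theorem mem_tail (T : RTree) : ∀ (i : ℕ) (b : List ℕ), i :: b ∈ T.verts → b ∈ T.verts := by
  induction T with
  | pt => intro i b h; simp [verts] at h
  | graft t s iht ihs =>
    intro i b h
    rw [verts, List.mem_append] at h ⊢
    rcases h with h | h
    · exact Or.inl (ihs i b h)
    · rw [List.mem_map] at h
      obtain ⟨c, hc, hcb⟩ := h
      cases c with
      | nil =>
        simp only [List.nil_append, List.cons.injEq] at hcb
        rw [← hcb.2]
        exact Or.inl (nil_mem s)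
      | cons j c' =>
        simp only [List.cons_append, List.cons.injEq] at hcb
        right
        rw [List.mem_map]
        exact ⟨c', iht j c' hc, hcb.2⟩

theorem length_eq {T T' : RTree} (f : T.graph ≃g T'.graph) (hf : f T.root = T'.root) :
    ∀ n : ℕ, ∀ a : {a : List ℕ // a ∈ T.verts}, a.1.length ≤ n → (f a).1.length = a.1.length := by
  intro n
  induction n with
  | zero =>
    rintro ⟨a, ha⟩ h
    have h0 : a = [] := List.length_eq_zero_iff.mp (by simpa using h)
    subst h0
    have : (⟨[], ha⟩ : {a : List ℕ // a ∈ T.verts}) = T.root := rfl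
    rw [this, hf]
    rfl
  | succ n ih =>
    rintro ⟨a, ha⟩ h
    cases a with
    | nil => exact ih ⟨[], ha⟩ (by simp)
    | cons i b =>
      have hb : b ∈ T.verts := mem_tail T i b ha
      have hbl : b.length ≤ n := by simpa using h
      have e1 := ih ⟨b, hb⟩ hbl
      have adj : T.graph.Adj ⟨i :: b, ha⟩ ⟨b, hb⟩ := Or.inl ⟨i, rfl⟩
      have adj' := f.map_rel_iff.mpr adj
      rcases adj' with ⟨j, hj⟩ | ⟨j, hj⟩
      · change (f ⟨i :: b, ha⟩).1 = j :: (f ⟨b, hb⟩).1 at hj
        rw [hj]
        simp only [List.length_cons]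
        rw [e1]
      · change (f ⟨b, hb⟩).1 = j :: (f ⟨i :: b, ha⟩).1 at hj
        exfalso
        cases b with
        | nil =>
          rw [hj] at e1
          simp at e1
        | cons k c =>
          have hc : c ∈ T.verts := mem_tail T k c hb
          have hcl : c.length ≤ n := by
            have : (k :: c).length = c.length + 1 := rfl
            omega
          have e2 := ih ⟨c, hc⟩ hcl
          have adj2 : T.graph.Adj ⟨k :: c, hb⟩ ⟨c, hc⟩ := Or.inl ⟨k, rfl⟩
          have adj2' := f.map_rel_iff.mpr adj2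
          rcases adj2' with ⟨l, hl⟩ | ⟨l, hl⟩
          · change (f ⟨k :: c, hb⟩).1 = l :: (f ⟨c, hc⟩).1 at hl
            rw [hj] at hl
            have h5 : f ⟨i :: k :: c, ha⟩ = f ⟨c, hc⟩ := by
              apply Subtype.ext
              exact (List.cons.inj hl).2
            have h6 := f.injective h5
            have h7 := congrArg (fun z => z.1.length) h6
            simp only [List.length_cons] at h7
            omega
          · change (f ⟨c, hc⟩).1 = l :: (f ⟨k :: c, hb⟩).1 at hl
            have h8 := congrArg List.length hl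
            simp only [List.length_cons] at h8 e1 e2
            omega

theorem parent {T T' : RTree} (f : T.graph ≃g T'.graph) (hf : f T.root = T'.root)
    (i : ℕ) (b : List ℕ) (ha : i :: b ∈ T.verts) (hb : b ∈ T.verts) :
    ∃ j, (f ⟨i :: b, ha⟩).1 = j :: (f ⟨b, hb⟩).1 := by
  have adj : T.graph.Adj ⟨i :: b, ha⟩ ⟨b, hb⟩ := Or.inl ⟨i, rfl⟩
  rcases f.map_rel_iff.mpr adj with ⟨j, hj⟩ | ⟨j, hj⟩
  · exact ⟨j, hj⟩
  · exfalso
    change (f ⟨b, hb⟩).1 = j :: (f ⟨i :: b, ha⟩).1 at hj
    have e1 := length_eq f hf _ ⟨b, hb⟩ le_rfl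
    have e2 := length_eq f hf _ ⟨i :: b, ha⟩ le_rfl
    have h8 := congrArg List.length hj
    simp only [List.length_cons] at h8 e1 e2
    omega

theorem drop4 {T T' : RTree} (f : T.graph ≃g T'.graph) (hf : f T.root = T'.root)
    (a b c d : ℕ) (s : List ℕ) (ha : a :: b :: c :: d :: s ∈ T.verts) (hs : s ∈ T.verts) :
    (f ⟨a :: b :: c :: d :: s, ha⟩).1.drop 4 = (f ⟨s, hs⟩).1 := by
  have h1 := mem_tail T _ _ ha
  have h2 := mem_tail T _ _ h1
  have h3 := mem_tail T _ _ h2
  obtain ⟨j1, e1⟩ := parent f hf _ _ ha h1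
  obtain ⟨j2, e2⟩ := parent f hf _ _ h1 h2
  obtain ⟨j3, e3⟩ := parent f hf _ _ h2 h3
  obtain ⟨j4, e4⟩ := parent f hf _ _ h3 hs
  rw [e1, e2, e3, e4]
  rfl

/-- vertices at depth 5 below `s` -/
def fib (T : RTree) (s : List ℕ) : Finset (List ℕ) :=
  T.verts.toFinset.filter (fun a => a.length = 5 ∧ a.drop 4 = s)

theorem not_iso : ¬ Iso T1 T2 := by
  rintro ⟨f, hf⟩
  have hs : [0] ∈ T1.verts := by decide
  have hcard1 : (fib T1 [0]).card = 4 := by decide
  have hl : (f ⟨[0], hs⟩).1.length = 1 := length_eq f hf _ ⟨[0], hs⟩ le_rfl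
  have hmem : (f ⟨[0], hs⟩).1 ∈ T2.verts := (f ⟨[0], hs⟩).2
  have hall : ∀ s ∈ T2.verts, s.length = 1 → (fib T2 s).card = 3 := by decide
  have hcard2 := hall _ hmem hl
  have hle : (fib T1 [0]).card ≤ (fib T2 (f ⟨[0], hs⟩).1).card := by
    refine Finset.card_le_card_of_injOn
      (fun a => if h : a ∈ T1.verts then (f ⟨a, h⟩).1 else []) ?_ ?_
    · intro a ha
      rw [fib, Finset.mem_coe, Finset.mem_filter, List.mem_toFinset] at ha
      obtain ⟨ha1, ha2, ha3⟩ := ha
      simp only [ha1, dif_pos]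
      rw [fib, Finset.mem_coe, Finset.mem_filter, List.mem_toFinset]
      refine ⟨(f ⟨a, ha1⟩).2, ?_, ?_⟩
      · rw [length_eq f hf _ ⟨a, ha1⟩ le_rfl]
        exact ha2
      · match a, ha2 with
        | [b1, b2, b3, b4, b5], _ =>
          have h5 : [b5] = [0] := by simpa using ha3
          have h6 : b5 = 0 := by simpa using h5
          subst h6
          exact drop4 f hf b1 b2 b3 b4 [0] ha1 hs
    · intro a ha b hb hab
      rw [fib, Finset.mem_coe, Finset.mem_filter, List.mem_toFinset] at ha hb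
      simp only [ha.1, hb.1, dif_pos] at hab
      have := f.injective (Subtype.ext hab)
      exact congrArg Subtype.val this
  omega

end RTree

open RTree

/-- There are two non-isomorphic rooted trees with the same polynomial `M`, hence with the same
`G`. -/
theorem result : ∃ T T' : RTree, ¬ RTree.Iso T T' ∧ M T = M T' ∧ G T = G T' := by
  refine ⟨T1, T2, not_iso, key X1 X2 hA hp, ?_⟩
  unfold G
  rw [show M T1 = M T2 from key X1 X2 hA hp]

end Pool.Agent.Results.MP_1db03b_co.NotComplete
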